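import Mathlib

-- part Pool.Agent.Lib.MP_bbe6b0_lc.Game
section

/-! Ehrenfeucht-Fraisse games for the language of orders, and the game on unions of cycles. -/

namespace Pool.Agent.Lib.MP_bbe6b0_lc

open FirstOrder FirstOrder.Language

/-- Quantifier depth. -/
def qd : ∀ {n : ℕ}, Language.order.BoundedFormula Empty n → ℕ
  | _, .falsum => 0
  | _, .equal _ _ => 0
  | _, .rel _ _ => 0
  | _, .imp f g => max (qd f) (qd g)
  | _, .all f => qd f + 1

theorem term_var {n : ℕ} (t : Language.order.Term (Empty ⊕ Fin n)) :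
    ∃ i : Fin n, t = Term.var (Sum.inr i) := by
  cases t with
  | var x =>
    cases x with
    | inl e => exact e.elim
    | inr i => exact ⟨i, rfl⟩
  | func f _ => exact f.elim

theorem ef {M N : Type} [LE M] [LE N] (I : ℕ → ∀ n : ℕ, (Fin n → M) → (Fin n → N) → Prop)
    (heq : ∀ k n xs ys, I k n xs ys → ∀ i j, xs i = xs j ↔ ys i = ys j)
    (hle : ∀ k n xs ys, I k n xs ys → ∀ i j, xs i ≤ xs j ↔ ys i ≤ ys j)
    (forth : ∀ k n xs ys, I (k + 1) n xs ys → ∀ x, ∃ y, I k (n + 1) (Fin.snoc xs x) (Fin.snoc ys y))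
    (back : ∀ k n xs ys, I (k + 1) n xs ys → ∀ y, ∃ x, I k (n + 1) (Fin.snoc xs x) (Fin.snoc ys y))
    {n : ℕ} (φ : Language.order.BoundedFormula Empty n) :
    ∀ (k : ℕ) (xs : Fin n → M) (ys : Fin n → N), qd φ ≤ k → I k n xs ys →
      (@BoundedFormula.Realize _ M (orderStructure M) _ _ φ default xs ↔
        @BoundedFormula.Realize _ N (orderStructure N) _ _ φ default ys) := by
  letI := orderStructure M
  letI := orderStructure N
  induction φ with
  | falsum => intro k xs ys _ _; exact Iff.rfl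
  | equal t₁ t₂ =>
    intro k xs ys _ h
    obtain ⟨i, rfl⟩ := term_var t₁
    obtain ⟨j, rfl⟩ := term_var t₂
    exact heq _ _ _ _ h i j
  | rel R ts =>
    intro k xs ys _ h
    cases R
    obtain ⟨i, hi⟩ := term_var (ts 0)
    obtain ⟨j, hj⟩ := term_var (ts 1)
    change (ts 0).realize (Sum.elim default xs) ≤ (ts 1).realize (Sum.elim default xs) ↔
      (ts 0).realize (Sum.elim default ys) ≤ (ts 1).realize (Sum.elim default ys)
    rw [hi, hj]
    exact hle _ _ _ _ h i j
  | imp f g ihf ihg =>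
    intro k xs ys hk h
    simp only [qd, max_le_iff] at hk
    exact imp_congr (ihf k xs ys hk.1 h) (ihg k xs ys hk.2 h)
  | all f ih =>
    intro k xs ys hk h
    simp only [qd] at hk
    obtain ⟨k, rfl⟩ : ∃ k', k = k' + 1 := ⟨k - 1, by omega⟩
    constructor
    · intro hx y
      obtain ⟨x, hI⟩ := back _ _ _ _ h y
      exact (ih k _ _ (by omega) hI).1 (hx x)
    · intro hy x
      obtain ⟨y, hI⟩ := forth _ _ _ _ h x
      exact (ih k _ _ (by omega) hI).2 (hy y)

/-- Two cycles of length `N`. -/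
abbrev V (N : ℕ) := ZMod N × Bool

/-- Rotation by `m`. -/
def sh {N : ℕ} (m : ℤ) (v : V N) : V N := (v.1 + m, v.2)

variable {N : ℕ}

theorem sh_add (a b : ℤ) (v : V N) : sh (a + b) v = sh b (sh a v) := by
  simp [sh, add_assoc]

@[simp] theorem sh_zero (v : V N) : sh 0 v = v := by simp [sh]

theorem sh_eq_iff (m : ℤ) (v w : V N) : sh m v = w ↔ sh (-m) w = v := by
  constructor
  · rintro rfl; rw [← sh_add]; simp
  · rintro rfl; rw [← sh_add]; simp

theorem sh_self_iff (m : ℤ) (v w : V N) : sh m v = v ↔ sh m w = w := by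
  simp [sh, Prod.ext_iff]

/-- The pairs in `Z` have the same relative positions up to distance `2 ^ k`. -/
def R (k : ℕ) (Z : Finset (V N × V N)) : Prop :=
  ∀ q ∈ Z, ∀ q' ∈ Z, ∀ m : ℤ, |m| ≤ 2 ^ k → (sh m q.1 = q'.1 ↔ sh m q.2 = q'.2)

theorem R.mono {k : ℕ} {Z : Finset (V N × V N)} (h : R (k + 1) Z) : R k Z := by
  intro q hq q' hq' m hm
  refine h q hq q' hq' m (hm.trans ?_)
  exact pow_le_pow_right₀ (by norm_num) (Nat.le_succ k)

theorem exists_far [NeZero N] (k : ℕ) (Z : Finset (V N × V N))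
    (hc : Z.card * (2 ^ (k + 1) + 1) < N) :
    ∃ b' : V N, ∀ q ∈ Z, ∀ m : ℤ, |m| ≤ 2 ^ k → sh m q.2 ≠ b' := by
  classical
  let T : Finset (V N) :=
    (Z ×ˢ Finset.Icc (-(2 ^ k : ℤ)) (2 ^ k)).image fun r => sh r.2 r.1.2
  have hT : T.card < Fintype.card (V N) := by
    refine Finset.card_image_le.trans_lt ?_
    rw [Finset.card_product, Int.card_Icc]
    have : (2 ^ k + 1 - -(2 ^ k) : ℤ).toNat = 2 ^ (k + 1) + 1 := by
      have : (2 ^ k + 1 - -(2 ^ k) : ℤ) = ((2 ^ (k + 1) + 1 : ℕ) : ℤ) := by push_cast; ring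
      rw [this, Int.toNat_natCast]
    rw [this]
    simp only [Fintype.card_prod, ZMod.card, Fintype.card_bool]
    omega
  obtain ⟨b', -, hb'⟩ := Finset.exists_mem_notMem_of_card_lt_card (t := Finset.univ) hT
  refine ⟨b', fun q hq m hm h => hb' ?_⟩
  refine Finset.mem_image.2 ⟨(q, m), Finset.mem_product.2 ⟨hq, ?_⟩, h⟩
  rw [Finset.mem_Icc]
  exact abs_le.1 hm

theorem R.forth [NeZero N] {k : ℕ} {Z : Finset (V N × V N)} (h : R (k + 1) Z)
    (hc : Z.card * (2 ^ (k + 1) + 1) < N) (a' : V N) :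
    ∃ b' : V N, R k (insert (a', b') Z) := by
  have key : ∀ b' : V N, (∀ q ∈ Z, ∀ m : ℤ, |m| ≤ 2 ^ k → (sh m q.1 = a' ↔ sh m q.2 = b')) →
      R k (insert (a', b') Z) := by
    intro b' hb q hq q' hq' m hm
    rcases Finset.mem_insert.1 hq with rfl | hq
    · rcases Finset.mem_insert.1 hq' with rfl | hq'
      · exact sh_self_iff _ _ _
      · rw [sh_eq_iff, sh_eq_iff m b']
        exact hb q' hq' (-m) (by rwa [abs_neg])
    · rcases Finset.mem_insert.1 hq' with rfl | hq'
      · exact hb q hq m hm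
      · exact h.mono q hq q' hq' m hm
  by_cases hn : ∃ q ∈ Z, ∃ m : ℤ, |m| ≤ 2 ^ k ∧ sh m q.1 = a'
  · obtain ⟨q₀, hq₀, m₀, hm₀, rfl⟩ := hn
    refine ⟨sh m₀ q₀.2, key _ fun q hq m hm => ?_⟩
    have h1 := h q hq q₀ hq₀ (m + -m₀) (by
      refine (abs_add_le _ _).trans ?_
      rw [abs_neg, pow_succ]
      linarith)
    rw [sh_add, sh_add, sh_eq_iff (-m₀), sh_eq_iff (-m₀), neg_neg] at h1
    rw [eq_comm, h1, eq_comm]
  · obtain ⟨b', hb'⟩ := exists_far k Z hc
    refine ⟨b', key _ fun q hq m hm => ?_⟩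
    exact iff_of_false (fun e => hn ⟨q, hq, m, hm, e⟩) (hb' q hq m hm)

theorem R.swap {k : ℕ} {Z : Finset (V N × V N)} (h : R k Z) : R k (Z.image Prod.swap) := by
  intro q hq q' hq' m hm
  obtain ⟨r, hr, rfl⟩ := Finset.mem_image.1 hq
  obtain ⟨r', hr', rfl⟩ := Finset.mem_image.1 hq'
  exact (h r hr r' hr' m hm).symm

theorem R.back [NeZero N] {k : ℕ} {Z : Finset (V N × V N)} (h : R (k + 1) Z)
    (hc : Z.card * (2 ^ (k + 1) + 1) < N) (b' : V N) :
    ∃ a' : V N, R k (insert (a', b') Z) := by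
  obtain ⟨a', ha'⟩ := h.swap.forth
    (lt_of_le_of_lt (Nat.mul_le_mul_right _ Finset.card_image_le) hc) b'
  refine ⟨a', ?_⟩
  have := ha'.swap
  rwa [Finset.image_insert, Finset.image_image, Prod.swap_swap_eq, Finset.image_id] at this

end Pool.Agent.Lib.MP_bbe6b0_lc
end

-- part Pool.Agent.Lib.MP_bbe6b0_lc.Poset
section

/-! The posets that encode reachability on two cycles. -/

namespace Pool.Agent.Lib.MP_bbe6b0_lc

open FirstOrder FirstOrder.Language

/-- Down-functions. -/
def IsDownFun {P : Type} [PartialOrder P] (f : P → P) : Prop :=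
  (∀ y, f y ≤ y) ∧ (∀ y z, y ≤ z → f y ≤ f z) ∧ ∀ y z, y ≤ f z → f y = y

section general

variable {P : Type} [PartialOrder P]

theorem IsDownFun.id : IsDownFun (fun y : P => y) := ⟨fun _ => le_rfl, fun _ _ h => h, fun _ _ _ => rfl⟩

theorem IsDownFun.comp {f g : P → P} (hf : IsDownFun f) (hg : IsDownFun g) :
    IsDownFun (fun y => f (g y)) := by
  refine ⟨fun y => (hf.1 _).trans (hg.1 _), fun y z h => hf.2.1 _ _ (hg.2.1 _ _ h), ?_⟩
  intro y z h
  have h1 : g y = y := hg.2.2 y z (h.trans (hf.1 _))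
  have h2 : f y = y := hf.2.2 y _ h
  simp only [h1, h2]

theorem IsDownFun.comm_le {f g : P → P} (hf : IsDownFun f) (hg : IsDownFun g) (z : P) :
    f (g z) ≤ g (f z) := by
  have h1 : f (f (g z)) = f (g z) := hf.2.2 _ _ le_rfl
  have h2 : g (f (g z)) = f (g z) := hg.2.2 _ z (hf.1 _)
  calc f (g z) = g (f (f (g z))) := by rw [h1, h2]
    _ ≤ g (f z) := hg.2.1 _ _ (hf.2.1 _ _ ((hf.1 _).trans (hg.1 _)))

/-- The semilattice of down-functions. -/
def DownFun (P : Type) [PartialOrder P] : Type := {f : P → P // IsDownFun f}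

instance : CommMonoid (DownFun P) where
  mul f g := ⟨fun y => g.1 (f.1 y), g.2.comp f.2⟩
  one := ⟨fun y => y, IsDownFun.id⟩
  mul_assoc _ _ _ := rfl
  one_mul _ := rfl
  mul_one _ := rfl
  mul_comm f g := Subtype.ext (funext fun z =>
    le_antisymm (g.2.comm_le f.2 z) (f.2.comm_le g.2 z))

theorem DownFun.mul_self (f : DownFun P) : f * f = f :=
  Subtype.ext (funext fun _ => f.2.2.2 _ _ le_rfl)

theorem isDownFun_atom [OrderBot P] (a : P) (ha : ∀ y, y ≤ a → y = a ∨ y = ⊥)
    [DecidablePred fun y => a ≤ y] : IsDownFun (fun y => if a ≤ y then a else ⊥) := by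
  refine ⟨fun y => ?_, fun y z h => ?_, fun y z h => ?_⟩
  · dsimp only
    split_ifs with h
    · exact h
    · exact bot_le
  · dsimp only
    by_cases h1 : a ≤ y
    · rw [if_pos h1, if_pos (h1.trans h)]
    · rw [if_neg h1]; exact bot_le
  · dsimp only at h ⊢
    have h1 : y ≤ a := h.trans (by split_ifs; exacts [le_rfl, bot_le])
    rcases ha y h1 with rfl | rfl
    · rw [if_pos le_rfl]
    · split_ifs with h2
      · exact le_bot_iff.1 h2
      · rfl

end general

/-- Elements: a bottom, atoms `g` and `p v`, the elements `x v` above `g, p v, p (v+1)`, the element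
`c` above `g, p s`, and `d` above `c, p t`. -/
inductive El (N : ℕ) (t : V N) : Type
  | bot : El N t
  | g : El N t
  | c : El N t
  | d : El N t
  | p (v : V N) : El N t
  | x (v : V N) : El N t

namespace El

variable {N : ℕ} {t : V N}

/-- The base vertex. -/
def s (N : ℕ) : V N := (0, false)

/-- The order. -/
def le : El N t → El N t → Prop
  | bot, _ => True
  | g, g => True
  | g, c => True
  | g, d => True
  | g, x _ => True
  | c, c => True
  | c, d => True
  | d, d => True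
  | p v, c => v = s N
  | p v, d => v = s N ∨ v = t
  | p v, p w => v = w
  | p v, x w => w = v ∨ sh 1 w = v
  | x v, x w => v = w
  | _, _ => False

instance : PartialOrder (El N t) where
  le := le
  le_refl a := by cases a <;> simp [le]
  le_trans a b c := by
    cases a <;> cases b <;> cases c <;> simp +contextual [le]
    rintro h rfl
    exact h
  le_antisymm a b := by cases a <;> cases b <;> simp +contextual [le]

theorem le_def (a b : El N t) : a ≤ b ↔ le a b := Iff.rfl

instance : OrderBot (El N t) where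
  bot := bot
  bot_le _ := trivial

instance [NeZero N] : Finite (El N t) := by
  refine Finite.of_surjective (fun q : Fin 4 ⊕ V N ⊕ V N => (match q with
    | .inl i => ![bot, g, c, d] i
    | .inr (.inl v) => p v
    | .inr (.inr v) => x v : El N t)) ?_
  intro a
  cases a
  · exact ⟨.inl 0, rfl⟩
  · exact ⟨.inl 1, rfl⟩
  · exact ⟨.inl 2, rfl⟩
  · exact ⟨.inl 3, rfl⟩
  · exact ⟨.inr (.inl _), rfl⟩
  · exact ⟨.inr (.inr _), rfl⟩

/-- The kind of an element. -/
def kind : El N t → ℕ
  | bot => 0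
  | g => 1
  | c => 2
  | d => 3
  | p _ => 4
  | x _ => 5

/-- The vertex of an element. -/
def vtx : El N t → V N
  | p v => v
  | x v => v
  | _ => s N

/-- Transport of an element to another vertex. -/
def move (t' : V N) : El N t → V N → El N t'
  | bot, _ => bot
  | g, _ => g
  | c, _ => c
  | d, _ => d
  | p _, w => p w
  | x _, w => x w

theorem kind_move (t' : V N) (a : El N t) (w : V N) : (move t' a w).kind = a.kind := by
  cases a <;> rfl

theorem vtx_move (t' : V N) (a : El N t) (w : V N) :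
    (move t' a w).vtx = w ∨ (a.vtx = s N ∧ (move t' a w).vtx = s N) := by
  cases a <;> simp [move, vtx]

/-- If `t` can be reached from `s`, there is no down-function sending `d` to `c`. -/
theorem not_down (j : ℕ) (hj : sh j (s N) = t) (hts : t ≠ s N) (f : El N t → El N t)
    (hf : IsDownFun f) : f d ≠ c := by
  intro hd
  have hg : f g = g := hf.2.2 g d (by rw [hd]; trivial)
  have key : ∀ i : ℕ, f (p (sh i (s N))) = p (sh i (s N)) := by
    intro i
    induction i with
    | zero => exact hf.2.2 _ d (by rw [hd]; simp [le_def, le])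
    | succ i ih =>
      have h1 : p (sh i (s N)) ≤ f (x (sh i (s N))) := by
        rw [← ih]; exact hf.2.1 _ _ (Or.inl rfl)
      have h2 : g ≤ f (x (sh i (s N))) := by
        rw [← hg]; exact hf.2.1 _ _ trivial
      have h3 := hf.1 (x (sh i (s N)))
      have h4 : f (x (sh i (s N))) = x (sh i (s N)) := by
        revert h1 h2 h3
        cases f (x (sh i (s N))) <;> simp [le_def, le]
      refine hf.2.2 _ (x (sh i (s N))) ?_
      rw [h4]
      refine Or.inr ?_
      rw [← sh_add]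
      push_cast
      rfl
  have h5 := key j
  rw [hj] at h5
  have h6 : f (p t) ≤ f d := hf.2.1 _ _ (Or.inr rfl)
  rw [h5, hd] at h6
  exact hts h6

/-- The down-function that keeps the cycle of `s`. -/
def cut : El N t → El N t
  | bot => bot
  | g => g
  | c => c
  | d => c
  | p v => if v.2 = false then p v else bot
  | x v => if v.2 = false then x v else g

theorem cut_down (ht : t.2 = true) : IsDownFun (cut : El N t → El N t) := by
  refine ⟨fun y => ?_, fun y z h => ?_, fun y z h => ?_⟩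
  · cases y <;> simp only [cut] <;> (try split_ifs) <;> simp [le_def, le]
  · cases y <;> cases z <;> simp only [cut] <;> (try split_ifs) <;>
      simp_all [le_def, le, s, sh] <;> aesop
  · cases y <;> cases z <;> simp only [cut] at h ⊢ <;> (try split_ifs at h ⊢) <;>
      simp_all [le_def, le, s, sh] <;> aesop

theorem exists_down (ht : t.2 = true) (a b : El N t) (h : a ≤ b) :
    ∃ f : El N t → El N t, IsDownFun f ∧ f b = a := by
  classical
  have atom : (∀ y, y ≤ a → y = a ∨ y = ⊥) → ∃ f : El N t → El N t, IsDownFun f ∧ f b = a :=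
    fun ha => ⟨_, isDownFun_atom a ha, if_pos h⟩
  cases a with
  | bot => exact atom fun y hy => Or.inr (le_bot_iff.1 hy)
  | g => exact atom fun y hy => by cases y <;> simp_all [le_def, le] <;> rfl
  | p v => exact atom fun y hy => by cases y <;> simp_all [le_def, le] <;> rfl
  | c =>
    cases b <;> simp only [le_def, le] at h
    · exact ⟨_, IsDownFun.id, rfl⟩
    · exact ⟨_, cut_down ht, rfl⟩
  | d =>
    cases b <;> simp only [le_def, le] at h
    exact ⟨_, IsDownFun.id, rfl⟩
  | x v =>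
    cases b <;> simp only [le_def, le] at h
    subst h
    exact ⟨_, IsDownFun.id, rfl⟩

end El

open El

/-- The invariant of the game. -/
def Inv (N K : ℕ) (t t' : V N) (k n : ℕ) (xs : Fin n → El N t) (ys : Fin n → El N t') : Prop :=
  ∃ Z : Finset (V N × V N), k ≤ K ∧ Z.card + k ≤ K + 2 ∧ (s N, s N) ∈ Z ∧ (t, t') ∈ Z ∧ R k Z ∧
    ∀ i, (xs i).kind = (ys i).kind ∧ ((xs i).vtx, (ys i).vtx) ∈ Z

variable {N K : ℕ} {t t' : V N}

theorem R.eq {k : ℕ} {Z : Finset (V N × V N)} (h : R k Z) {a b a' b' : V N} (h1 : (a, b) ∈ Z)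
    (h2 : (a', b') ∈ Z) : a = a' ↔ b = b' := by
  simpa using h _ h1 _ h2 0 (by simp)

theorem R.one {k : ℕ} {Z : Finset (V N × V N)} (h : R k Z) {a b a' b' : V N} (h1 : (a, b) ∈ Z)
    (h2 : (a', b') ∈ Z) : sh 1 a = a' ↔ sh 1 b = b' :=
  h _ h1 _ h2 1 (by simpa using one_le_pow₀ (by norm_num))

theorem Inv.eq (k n : ℕ) (xs : Fin n → El N t) (ys : Fin n → El N t') (h : Inv N K t t' k n xs ys)
    (i j : Fin n) : xs i = xs j ↔ ys i = ys j := by
  obtain ⟨Z, -, -, -, -, hR, h⟩ := h
  obtain ⟨k1, v1⟩ := h i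
  obtain ⟨k2, v2⟩ := h j
  have e := hR.eq v1 v2
  revert k1 k2 e
  cases xs i <;> cases xs j <;> cases ys i <;> cases ys j <;> simp [kind, vtx]

theorem Inv.le (k n : ℕ) (xs : Fin n → El N t) (ys : Fin n → El N t') (h : Inv N K t t' k n xs ys)
    (i j : Fin n) : xs i ≤ xs j ↔ ys i ≤ ys j := by
  obtain ⟨Z, -, -, hs, ht, hR, h⟩ := h
  obtain ⟨k1, v1⟩ := h i
  obtain ⟨k2, v2⟩ := h j
  have e1 := hR.eq v1 v2
  have e2 := hR.eq v2 v1
  have e3 := hR.one v2 v1
  have e4 := hR.eq v1 hs
  have e5 := hR.eq v1 ht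
  clear v1 v2
  revert e1 e2 e3 e4 e5
  revert k2
  revert k1
  cases xs i <;> cases ys i <;> intro k1 <;> (try (simp only [kind] at k1; omega)) <;>
    cases xs j <;> cases ys j <;> intro k2 <;> (try (simp only [kind] at k2; omega)) <;>
    simp only [vtx, le_def, El.le] <;> tauto

theorem card_bound {k z : ℕ} (hk : k + 1 ≤ K) (hz : z + (k + 1) ≤ K + 2)
    (hN : (K + 2) * (2 ^ (K + 1) + 1) < N) : z * (2 ^ (k + 1) + 1) < N := by
  refine lt_of_le_of_lt (Nat.mul_le_mul (by omega) ?_) hN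
  have : 2 ^ (k + 1) ≤ 2 ^ (K + 1) := Nat.pow_le_pow_right (by norm_num) (by omega)
  omega

theorem Inv.forth [NeZero N] (hN : (K + 2) * (2 ^ (K + 1) + 1) < N) (k n : ℕ)
    (xs : Fin n → El N t) (ys : Fin n → El N t') (h : Inv N K t t' (k + 1) n xs ys) (a : El N t) :
    ∃ b, Inv N K t t' k (n + 1) (Fin.snoc xs a) (Fin.snoc ys b) := by
  obtain ⟨Z, hk, hc, hs, ht, hR, h⟩ := h
  obtain ⟨w, hw⟩ := hR.forth (card_bound hk hc hN) a.vtx
  refine ⟨move t' a w, insert (a.vtx, w) Z, by omega, ?_, Finset.mem_insert_of_mem hs,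
    Finset.mem_insert_of_mem ht, hw, ?_⟩
  · have := Finset.card_insert_le (a.vtx, w) Z
    omega
  · intro i
    refine Fin.lastCases ?_ (fun i => ?_) i
    · simp only [Fin.snoc_last]
      refine ⟨(kind_move _ _ _).symm, ?_⟩
      rcases vtx_move t' a w with e | ⟨e1, e2⟩
      · rw [e]; exact Finset.mem_insert_self _ _
      · rw [e2]; rw [e1] at *; exact Finset.mem_insert_of_mem hs
    · simp only [Fin.snoc_castSucc]
      exact ⟨(h i).1, Finset.mem_insert_of_mem (h i).2⟩

theorem Inv.back [NeZero N] (hN : (K + 2) * (2 ^ (K + 1) + 1) < N) (k n : ℕ)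
    (xs : Fin n → El N t) (ys : Fin n → El N t') (h : Inv N K t t' (k + 1) n xs ys) (b : El N t') :
    ∃ a, Inv N K t t' k (n + 1) (Fin.snoc xs a) (Fin.snoc ys b) := by
  obtain ⟨Z, hk, hc, hs, ht, hR, h⟩ := h
  obtain ⟨w, hw⟩ := hR.back (card_bound hk hc hN) b.vtx
  refine ⟨move t b w, insert (w, b.vtx) Z, by omega, ?_, Finset.mem_insert_of_mem hs,
    Finset.mem_insert_of_mem ht, hw, ?_⟩
  · have := Finset.card_insert_le (w, b.vtx) Z
    omega
  · intro i
    refine Fin.lastCases ?_ (fun i => ?_) i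
    · simp only [Fin.snoc_last]
      refine ⟨kind_move _ _ _, ?_⟩
      rcases vtx_move t b w with e | ⟨e1, e2⟩
      · rw [e]; exact Finset.mem_insert_self _ _
      · rw [e2]; rw [e1] at *; exact Finset.mem_insert_of_mem hs
    · simp only [Fin.snoc_castSucc]
      exact ⟨(h i).1, Finset.mem_insert_of_mem (h i).2⟩

theorem cast_ne_zero {m : ℤ} (h0 : m ≠ 0) (h1 : |m| < N) : (m : ZMod N) ≠ 0 := by
  rw [Ne, ZMod.intCast_zmod_eq_zero_iff_dvd]
  intro h
  exact h0 (Int.eq_zero_of_abs_lt_dvd h h1)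

theorem Inv.start (hN : (K + 2) * (2 ^ (K + 1) + 1) < N) :
    Inv N K (sh ((2 ^ K + 1 : ℕ) : ℤ) (s N)) (0, true) K 0 default default := by
  have hN' : (2 : ℤ) ^ (K + 1) + 1 < N := by
    have : 2 ^ (K + 1) + 1 < N := by nlinarith [Nat.zero_le (2 ^ (K + 1))]
    exact_mod_cast this
  have far : ∀ m : ℤ, |m| ≤ 2 ^ K → sh m (s N) ≠ sh ((2 ^ K + 1 : ℕ) : ℤ) (s N) := by
    intro m hm h
    rw [abs_le] at hm
    have h2 : ((m - (2 ^ K + 1) : ℤ) : ZMod N) = 0 := by
      have := congrArg Prod.fst h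
      simp only [sh, s, zero_add] at this
      push_cast at this ⊢
      rw [this, sub_self]
    refine cast_ne_zero (by linarith) ?_ h2
    rw [abs_lt, pow_succ] at *
    constructor <;> linarith
  refine ⟨{(s N, s N), (sh ((2 ^ K + 1 : ℕ) : ℤ) (s N), (0, true))}, le_rfl, ?_, by simp, by simp,
    ?_, fun i => i.elim0⟩
  · have := Finset.card_le_two (a := (s N, s N))
      (b := (sh ((2 ^ K + 1 : ℕ) : ℤ) (s N), ((0, true) : V N)))
    omega
  · intro q hq q' hq' m hm
    simp only [Finset.mem_insert, Finset.mem_singleton] at hq hq'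
    rcases hq with rfl | rfl <;> rcases hq' with rfl | rfl
    · exact Iff.rfl
    · exact iff_of_false (far m hm) (by simp [sh, s])
    · refine iff_of_false ?_ (by simp [sh, s])
      rw [sh_eq_iff]
      exact far (-m) (by rwa [abs_neg])
    · exact sh_self_iff _ _ _

theorem start_ne (hN : (K + 2) * (2 ^ (K + 1) + 1) < N) :
    sh ((2 ^ K + 1 : ℕ) : ℤ) (s N) ≠ s N := by
  intro h
  have hN' : (2 : ℤ) ^ (K + 1) + 1 < N := by
    have : 2 ^ (K + 1) + 1 < N := by nlinarith [Nat.zero_le (2 ^ (K + 1))]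
    exact_mod_cast this
  have h2 : (((2 ^ K + 1 : ℕ) : ℤ) : ZMod N) = 0 := by
    have := congrArg Prod.fst h
    simpa only [sh, s, zero_add] using this
  have hpos : (0 : ℤ) < 2 ^ K := by positivity
  refine cast_ne_zero (by positivity) ?_ h2
  rw [abs_lt, pow_succ] at *
  push_cast
  constructor <;> linarith

/-- The two posets satisfy the same sentences of quantifier depth at most `K`. -/
theorem realize_iff [NeZero N] (φ : Language.order.Sentence) (hK : qd φ ≤ K)
    (hN : (K + 2) * (2 ^ (K + 1) + 1) < N) :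
    @Sentence.Realize _ (El N (sh ((2 ^ K + 1 : ℕ) : ℤ) (s N))) (orderStructure _) φ ↔
      @Sentence.Realize _ (El N (0, true)) (orderStructure _) φ :=
  ef (Inv N K _ _) Inv.eq Inv.le (Inv.forth hN) (Inv.back hN) φ K default default hK
    (Inv.start hN)

end Pool.Agent.Lib.MP_bbe6b0_lc
end
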